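import Mathlib

set_option autoImplicit false

namespace Pool.Agent.Results.MP_e1ef61_al.NotQuasi

/-- `x L* y`: the cases `a, b ∈ S` and `b = 1` of the definition -/
def LStar {S : Type} [Mul S] (x y : S) : Prop :=
  (∀ a b, x * a = x * b ↔ y * a = y * b) ∧ ∀ a, x * a = x ↔ y * a = y

/-- `x R* y` -/
def RStar {S : Type} [Mul S] (x y : S) : Prop :=
  (∀ a b, a * x = b * x ↔ a * y = b * y) ∧ ∀ a, a * x = x ↔ a * y = y

/-- `S` is amiable, with `l x`, `r x` the unique idempotents `L*`-, `R*`-related to `x` -/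
def Amiable (S : Type) [Semigroup S] (l r : S → S) : Prop :=
  ∀ x e : S, (e * e = e ∧ LStar x e ↔ e = l x) ∧ (e * e = e ∧ RStar x e ↔ e = r x)

/-- terms of type `⟨2,1,1⟩` -/
inductive Tm
  | var : ℕ → Tm
  | mul : Tm → Tm → Tm
  | l : Tm → Tm
  | r : Tm → Tm

/-- value of a term -/
def Tm.ev {S : Type} [Mul S] (l r : S → S) (v : ℕ → S) : Tm → S
  | .var i => v i
  | .mul s t => s.ev l r v * t.ev l r v
  | .l s => l (s.ev l r v)
  | .r s => r (s.ev l r v)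

/-- the quasi-identity `q` (premises, conclusion) holds -/
def Holds (S : Type) [Mul S] (l r : S → S) (q : List (Tm × Tm) × Tm × Tm) : Prop :=
  ∀ v : ℕ → S, (∀ p ∈ q.1, p.1.ev l r v = p.2.ev l r v) → q.2.1.ev l r v = q.2.2.ev l r v

/-- `F`: the alternating word with first letter `c ∈ {0, 1}` and length `k + 1` -/
@[ext] structure F where
  c : Fin 2
  k : ℕ

/-- concatenation, with a repeated letter at the junction deleted -/
instance : Mul F := ⟨fun x y => ⟨x.c, x.k + (x.c + x.k + y.c) % 2 + y.k⟩⟩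

instance : Semigroup F where
  mul_assoc x y z := F.ext rfl (by
    show x.k + (x.c + x.k + y.c) % 2 + y.k + (x.c + (x.k + (x.c + x.k + y.c) % 2 + y.k) + z.c) % 2 +
      z.k = x.k + (x.c + x.k + y.c) % 2 + (y.k + (y.c + y.k + z.c) % 2 + z.k)
    omega)

/-- no subsemigroup of `S` is isomorphic to `F` -/
def AvoidsF (S : Type) [Mul S] : Prop := ¬ ∃ f : F →ₙ* S, Function.Injective f

lemma mc (x y : F) : (x * y).c = x.c := rfl
lemma mk' (x y : F) : (x * y).k = x.k + (x.c + x.k + y.c) % 2 + y.k := rfl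

def S : Type := {X : Set (F × ℕ) // X.Finite ∧ ∀ p ∈ X, ∀ q ∈ X, p.1 = q.1}

instance : Mul S := ⟨fun X Y => ⟨{p | ∃ x ∈ X.1, ∃ y ∈ Y.1, p = (x.1 * y.1, y.2) ∧
    x.2 + x.1.k = y.2 + p.1.k},
  ((X.2.1.prod Y.2.1).image fun z => (z.1.1 * z.2.1, z.2.2)).subset
    fun _ ⟨x, hx, y, hy, e, _⟩ => ⟨(x, y), ⟨hx, hy⟩, e.symm⟩,
  fun _ ⟨x, hx, y, hy, e, _⟩ _ ⟨x', hx', y', hy', e', _⟩ => by
    rw [e, e', X.2.2 x hx x' hx', Y.2.2 y hy y' hy']⟩⟩

lemma mem {X Y : S} {p : F × ℕ} : p ∈ (X * Y).1 ↔ ∃ x ∈ X.1, ∃ y ∈ Y.1, p.1.c = x.1.c ∧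
    p.1.k = x.1.k + (x.1.c + x.1.k + y.1.c) % 2 + y.1.k ∧ p.2 = y.2 ∧
    x.2 + x.1.k = y.2 + p.1.k :=
  exists_congr fun x => and_congr_right fun _ => exists_congr fun y => and_congr_right fun _ => by
    simp only [Prod.ext_iff, F.ext_iff, mc, mk', and_assoc]

instance : Semigroup S where
  mul_assoc X Y Z := Subtype.ext (Set.ext fun p => by
    simp only [mem]
    constructor
    · rintro ⟨u, ⟨x, hx, y, hy, h⟩, z, hz, h'⟩
      exact ⟨x, hx, (y.1 * z.1, z.2), ⟨y, hy, z, hz, by simp only [mc, mk', true_and, and_true]; omega⟩,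
        by simp only [mc, mk', true_and, and_true]; omega⟩
    · rintro ⟨x, hx, u, ⟨y, hy, z, hz, h⟩, h'⟩
      exact ⟨(x.1 * y.1, y.2), ⟨x, hx, y, hy, by simp only [mc, mk', true_and, and_true]; omega⟩, z, hz,
        by simp only [mc, mk', true_and, and_true]; omega⟩)

def lS (X : S) : S := ⟨(fun p => (⟨⟨(p.1.c + p.1.k) % 2, by omega⟩, 0⟩, p.2)) '' X.1,
  X.2.1.image _, by rintro _ ⟨p, hp, rfl⟩ _ ⟨q, hq, rfl⟩; simp only [X.2.2 p hp q hq]⟩

def rS (X : S) : S := ⟨(fun p => (⟨p.1.c, 0⟩, p.2 + p.1.k)) '' X.1,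
  X.2.1.image _, by rintro _ ⟨p, hp, rfl⟩ _ ⟨q, hq, rfl⟩; simp only [X.2.2 p hp q hq]⟩

lemma eq' {p q : F × ℕ} (h : p.1.c = q.1.c ∧ p.1.k = q.1.k ∧ p.2 = q.2) : p = q :=
  Prod.ext (F.ext h.1 h.2.1) h.2.2

lemma idem {E : S} (h : E * E = E) {p : F × ℕ} (hp : p ∈ E.1) : p.1.k = 0 := by
  obtain ⟨x, hx, y, hy, h⟩ := mem.1 (h.symm ▸ hp)
  rw [E.2.2 x hx p hp, E.2.2 y hy p hp] at h
  omega

lemma inter {E G : S} (hE : ∀ p ∈ E.1, p.1.k = 0) (hG : ∀ p ∈ G.1, p.1.k = 0)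
    (h : ∀ p ∈ E.1, ∀ q ∈ G.1, p.1.c = q.1.c) : (E * G).1 = E.1 ∩ G.1 := Set.ext fun p => by
  rw [mem]
  constructor
  · rintro ⟨x, hx, y, hy, h'⟩
    have := hE x hx; have := hG y hy; have := h x hx y hy
    exact ⟨(eq' (by omega) : x = p) ▸ hx, (eq' (by omega) : y = p) ▸ hy⟩
  · rintro ⟨h1, h2⟩
    have := hE p h1
    exact ⟨p, h1, p, h2, by omega⟩

lemma sub {E G : S} (hE : E * E = E) (hG : G * G = G) (h : E * G = E ∨ G * E = E) : E.1 ⊆ G.1 :=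
  fun p hp => by
    have := idem hE hp
    rcases h with h | h <;> obtain ⟨x, hx, y, hy, h⟩ := mem.1 (h.symm ▸ hp)
    · have := idem hG hy
      exact (eq' (by omega) : y = p) ▸ hy
    · have := idem hG hx
      exact (eq' (by omega) : x = p) ▸ hx

lemma mkL {T : Type} [Semigroup T] {x e : T} (he : e * e = e) (hx : x * e = x)
    (h : ∀ z z', e * z = z → e * z' = z' → x * z = x * z' → z = z') : LStar x e :=
  ⟨fun a b => ⟨fun h' => h _ _ (by rw [← mul_assoc, he]) (by rw [← mul_assoc, he])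
    (by rw [← mul_assoc, ← mul_assoc, hx, h']),
    fun h' => by rw [← hx, mul_assoc, h', mul_assoc]⟩,
  fun a => ⟨fun h' => h _ _ (by rw [← mul_assoc, he]) he (by rw [← mul_assoc, hx, h']),
    fun h' => by rw [← hx, mul_assoc, h']⟩⟩

lemma mkR {T : Type} [Semigroup T] {x e : T} (he : e * e = e) (hx : e * x = x)
    (h : ∀ z z', z * e = z → z' * e = z' → z * x = z' * x → z = z') : RStar x e :=
  ⟨fun a b => ⟨fun h' => h _ _ (by rw [mul_assoc, he]) (by rw [mul_assoc, he])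
    (by rw [mul_assoc, mul_assoc, hx, h']),
    fun h' => by rw [← hx, ← mul_assoc, h', ← mul_assoc]⟩,
  fun a => ⟨fun h' => h _ _ (by rw [mul_assoc, he]) he (by rw [mul_assoc, hx, h']),
    fun h' => by rw [← hx, ← mul_assoc, h']⟩⟩

lemma hL (X : S) : lS X * lS X = lS X ∧ LStar X (lS X) := by
  have h0 : ∀ p ∈ (lS X).1, p.1.k = 0 := by rintro _ ⟨p, -, rfl⟩; rfl
  have h1 : lS X * lS X = lS X := Subtype.ext (by
    rw [inter h0 h0 fun p hp q hq => by rw [(lS X).2.2 p hp q hq], Set.inter_self])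
  have h2 : ∀ z z', lS X * z = z → lS X * z' = z' → X * z = X * z' → z.1 ⊆ z'.1 := by
    intro z z' a b c p hp
    obtain ⟨_, ⟨x, hx, rfl⟩, y, hy, h⟩ := mem.1 (a.symm ▸ hp)
    obtain ⟨x', hx', y', hy', h'⟩ := mem.1 (c ▸ mem.2 ⟨x, hx, p, hp, by
      simp only [mc, mk', Fin.ext_iff, true_and, and_true] at h ⊢; omega⟩ : (x.1 * p.1, p.2) ∈ (X * z').1)
    obtain ⟨_, ⟨x'', hx'', rfl⟩, y'', -, h''⟩ := mem.1 (b.symm ▸ hy')
    simp only [mc, mk', Fin.ext_iff, X.2.2 x' hx' x hx, X.2.2 x'' hx'' x hx] at h h' h''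
    exact (eq' (by omega) : y' = p) ▸ hy'
  refine ⟨h1, mkL h1 (Subtype.ext (Set.ext fun p => mem.trans ⟨?_, fun hp =>
    ⟨p, hp, _, ⟨p, hp, rfl⟩, by simp only [true_and, and_true]; omega⟩⟩)) fun z z' a b c =>
      Subtype.ext ((h2 z z' a b c).antisymm (h2 z' z b a c.symm))⟩
  rintro ⟨x, hx, _, ⟨y, hy, rfl⟩, h⟩
  simp only [X.2.2 y hy x hx] at h
  exact (eq' (by omega) : x = p) ▸ hx

lemma hR (X : S) : rS X * rS X = rS X ∧ RStar X (rS X) := by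
  have h0 : ∀ p ∈ (rS X).1, p.1.k = 0 := by rintro _ ⟨p, -, rfl⟩; rfl
  have h1 : rS X * rS X = rS X := Subtype.ext (by
    rw [inter h0 h0 fun p hp q hq => by rw [(rS X).2.2 p hp q hq], Set.inter_self])
  have h2 : ∀ z z', z * rS X = z → z' * rS X = z' → z * X = z' * X → z.1 ⊆ z'.1 := by
    intro z z' a b c p hp
    obtain ⟨y, hy, _, ⟨x, hx, rfl⟩, h⟩ := mem.1 (a.symm ▸ hp)
    rw [z.2.2 y hy p hp] at h
    obtain ⟨y', hy', x', hx', h'⟩ := mem.1 (c ▸ mem.2 ⟨p, hp, x, hx, by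
      simp only [mc, mk', Fin.ext_iff, true_and, and_true] at h ⊢; omega⟩ : (p.1 * x.1, x.2) ∈ (z' * X).1)
    obtain ⟨y'', hy'', _, ⟨x'', hx'', rfl⟩, h''⟩ := mem.1 (b.symm ▸ hy')
    simp only [mc, mk', Fin.ext_iff, X.2.2 x' hx' x hx, X.2.2 x'' hx'' x hx,
      z'.2.2 y'' hy'' y' hy'] at h h' h''
    exact (eq' (by omega) : y' = p) ▸ hy'
  refine ⟨h1, mkR h1 (Subtype.ext (Set.ext fun p => mem.trans ⟨?_, fun hp =>
    ⟨_, ⟨p, hp, rfl⟩, p, hp, by simp only [true_and, and_true]; omega⟩⟩)) fun z z' a b c =>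
      Subtype.ext ((h2 z z' a b c).antisymm (h2 z' z b a c.symm))⟩
  rintro ⟨_, ⟨y, hy, rfl⟩, x, hx, h⟩
  simp only [X.2.2 y hy x hx] at h
  exact (eq' (by omega) : x = p) ▸ hx

lemma am {T : Type} [Semigroup T] {l r : T → T} (h1 : ∀ x, l x * l x = l x ∧ LStar x (l x))
    (h2 : ∀ x, r x * r x = r x ∧ RStar x (r x)) (h : ∀ e g : T, e * e = e → g * g = g →
      (e * g = e ∧ g * e = g ∨ g * e = e ∧ e * g = g) → e = g) : Amiable T l r := fun x e =>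
  ⟨⟨fun ⟨a, b⟩ => h _ _ a (h1 x).1 (.inl ⟨(b.2 _).1 (((h1 x).2.2 _).2 (h1 x).1),
    ((h1 x).2.2 _).1 ((b.2 _).2 a)⟩), fun e => e ▸ h1 x⟩,
  ⟨fun ⟨a, b⟩ => h _ _ a (h2 x).1 (.inr ⟨(b.2 _).1 (((h2 x).2.2 _).2 (h2 x).1),
    ((h2 x).2.2 _).1 ((b.2 _).2 a)⟩), fun e => e ▸ h2 x⟩⟩

lemma uniq (e g : S) (he : e * e = e) (hg : g * g = g)
    (h : e * g = e ∧ g * e = g ∨ g * e = e ∧ e * g = g) : e = g :=
  Subtype.ext ((sub he hg (h.imp And.left And.left)).antisymm (sub hg he (h.imp And.right And.right)))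

lemma avoid : AvoidsF S := by
  rintro ⟨f, hf⟩
  have h0 : ∀ d, ∀ p ∈ (f ⟨d, 0⟩).1, p.1.k = 0 := fun d p hp => idem (by
    rw [← map_mul]; congr 1; exact F.ext rfl (by rw [mk']; simp only; omega)) hp
  have h1 : ∀ p ∈ (f ⟨0, 0⟩).1, ∀ q ∈ (f ⟨1, 0⟩).1, p.1.c ≠ q.1.c := fun p hp q hq e => by
    have : ∀ p' ∈ (f ⟨0, 0⟩).1, ∀ q' ∈ (f ⟨1, 0⟩).1, p'.1.c = q'.1.c := fun p' hp' q' hq' => by
      rw [(f _).2.2 p' hp' p hp, (f _).2.2 q' hq' q hq, e]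
    have : f (⟨0, 0⟩ * ⟨1, 0⟩) = f (⟨1, 0⟩ * ⟨0, 0⟩) := Subtype.ext (by
      rw [map_mul, map_mul, inter (h0 0) (h0 1) this, inter (h0 1) (h0 0)
        fun p hp q hq => (this q hq p hp).symm, Set.inter_comm])
    exact absurd (congrArg F.c (hf this)) (by decide)
  have h2 : ∀ k d, ∀ p ∈ (f ⟨d, k⟩).1, p.1.k = k ∧ ∃ q ∈ (f ⟨d, 0⟩).1, q.1.c = p.1.c ∧ k ≤ q.2 := by
    intro k
    induction k with
    | zero => exact fun d p hp => ⟨h0 d p hp, p, hp, rfl, Nat.zero_le _⟩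
    | succ k ih =>
      intro d p hp
      rw [show (⟨d, k + 1⟩ : F) = ⟨d, 0⟩ * ⟨d + 1, k⟩ from F.ext rfl (by
        rw [mk']; simp only; omega), map_mul] at hp
      obtain ⟨x, hx, y, hy, h⟩ := mem.1 hp
      obtain ⟨e, q, hq, e', -⟩ := ih _ y hy
      have := h0 d x hx
      have : x.1.c ≠ q.1.c := by
        fin_cases d
        exacts [h1 x hx q hq, (h1 q hq x hx).symm]
      exact ⟨by omega, x, hx, h.1.symm, by omega⟩
  obtain ⟨N, hN⟩ := ((f ⟨0, 0⟩).2.1.image Prod.snd).bddAbove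
  have h3 : ∀ k, N < k → (f ⟨0, k⟩).1 = ∅ := fun k hk => Set.eq_empty_of_forall_notMem fun p hp => by
    obtain ⟨-, q, hq, -, h⟩ := h2 k 0 p hp
    exact (hk.trans_le h).not_ge (hN ⟨q, hq, rfl⟩)
  have := congrArg F.k (hf (Subtype.ext ((h3 (N + 1) (by omega)).trans (h3 (N + 2) (by omega)).symm)))
  simp at this

/-- No set of quasi-identities singles out the `F`-avoiding ones among amiable semigroups. -/
theorem result : ¬ ∃ Q : Set (List (Tm × Tm) × Tm × Tm),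
    ∀ (S : Type) [Semigroup S] (l r : S → S), Amiable S l r →
      (AvoidsF S ↔ ∀ q ∈ Q, Holds S l r q) := by
  rintro ⟨Q, h⟩
  have h1 := (h S lS rS (am hL hR uniq)).1 avoid
  have ev : ∀ (v : ℕ → ℕ → S) (t : Tm) i, t.ev (lS ∘ ·) (rS ∘ ·) v i = t.ev lS rS (v · i) :=
    fun v t i => by induction t <;> simp_all [Tm.ev]
  refine (h (ℕ → S) (lS ∘ ·) (rS ∘ ·) (am (fun x => ⟨funext fun i => (hL _).1, fun a b => ?_,
    fun a => ?_⟩) (fun x => ⟨funext fun i => (hR _).1, fun a b => ?_, fun a => ?_⟩)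
    fun e g he hg h => funext fun i => uniq _ _ (congrFun he i) (congrFun hg i) (h.imp
      (fun h => ⟨congrFun h.1 i, congrFun h.2 i⟩) fun h => ⟨congrFun h.1 i, congrFun h.2 i⟩))).2
    (fun q hq v hv => funext fun i => by
      rw [ev, ev]; exact h1 q hq _ fun p hp => by rw [← ev, ← ev, hv p hp])
    ⟨⟨fun w i => ⟨{p | p.1 = w ∧ p.2 + w.k ≤ i}, ((Set.finite_le_nat i).image (w, ·)).subset
      fun p hp => ⟨p.2, le_of_add_le_left hp.2, hp.1 ▸ rfl⟩, fun p hp q hq => hp.1.trans hq.1.symm⟩,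
      fun w w' => funext fun i => Subtype.ext (Set.ext fun p => Iff.symm (mem.trans ⟨?_, ?_⟩))⟩,
      fun w w' e => ?_⟩
  · simp only [funext_iff]; exact forall_congr' fun i => (hL (x i)).2.1 _ _
  · simp only [funext_iff]; exact forall_congr' fun i => (hL (x i)).2.2 _
  · simp only [funext_iff]; exact forall_congr' fun i => (hR (x i)).2.1 _ _
  · simp only [funext_iff]; exact forall_congr' fun i => (hR (x i)).2.2 _
  · rintro ⟨x, ⟨rfl, hx⟩, y, ⟨rfl, hy⟩, h⟩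
    exact ⟨F.ext h.1 h.2.1, by rw [mk']; omega⟩
  · rintro ⟨e, h⟩
    rw [mk'] at h
    exact ⟨(w, p.2 + (w * w').k - w.k), ⟨rfl, by simp only [mk']; omega⟩, (w', p.2),
      ⟨rfl, show p.2 + w'.k ≤ i by omega⟩, by simp only [e, mc, mk', true_and]; omega⟩
  · have := congrArg (fun X : S => (w, 0) ∈ X.1) (congrFun e w.k)
    exact (this.mp ⟨rfl, by simp⟩).1

end Pool.Agent.Results.MP_e1ef61_al.NotQuasi
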